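import Mathlib

/-!
# Colouring unit circular arcs with max-load many colours

If `L - 1` unit arcs (in particular, if `L + 1` pairwise disjoint unit arcs) can be added to a
finite family of unit arcs on a circle of circumference `lam ≥ 2` so that still every point is
covered at most `L` times, then the family can be properly coloured with `L` colours.
-/

namespace Pool.Agent.Results.MP_7d4b8e_co.UnitArcs

/-- The half-open unit arc with starting point `s` on the circle `ℝ / lam ℤ`. -/
def arc (lam : ℝ) (s : AddCircle lam) : Set (AddCircle lam) :=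
  {p | ∃ t : ℝ, 0 ≤ t ∧ t < 1 ∧ p = s + (t : AddCircle lam)}

/-- `LoadLE lam a L`: every point of the circle lies in at most `L` of the arcs of the finite
family `arc (a i)`, that is, the max load of the family is at most `L`. -/
def LoadLE (lam : ℝ) {ι : Type} (a : ι → AddCircle lam) (L : ℕ) : Prop :=
  ∀ p : AddCircle lam, {i : ι | p ∈ arc lam (a i)}.ncard ≤ L

lemma mem_arc {lam x y : ℝ} (t : ℝ) (h0 : 0 ≤ t) (h1 : t < 1) (n : ℤ)
    (h : y = x + t + n * lam) : (y : AddCircle lam) ∈ arc lam (x : AddCircle lam) := by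
  refine ⟨t, h0, h1, ?_⟩
  rw [← AddCircle.coe_add, ← sub_eq_zero, ← AddCircle.coe_sub, AddCircle.coe_eq_zero_iff]
  refine ⟨n, ?_⟩
  rw [zsmul_eq_mul, h]
  ring

lemma arc_inter {lam : ℝ} (h2 : 2 ≤ lam) {x y : ℝ} (hx0 : 0 ≤ x) (hxy : x ≤ y) (hy : y < lam)
    (h : (arc lam (x : AddCircle lam) ∩ arc lam (y : AddCircle lam)).Nonempty) :
    y - x < 1 ∨ x + lam - y < 1 := by
  obtain ⟨p, ⟨s, hs0, hs1, hs⟩, ⟨t, ht0, ht1, ht⟩⟩ := h
  rw [hs, ← AddCircle.coe_add, ← AddCircle.coe_add, ← sub_eq_zero, ← AddCircle.coe_sub,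
    AddCircle.coe_eq_zero_iff] at ht
  obtain ⟨n, hn⟩ := ht
  rw [zsmul_eq_mul] at hn
  have hn1 : (n : ℝ) < 1 := by
    by_contra hcon
    push Not at hcon
    nlinarith
  have hn2 : (-2 : ℝ) < n := by
    by_contra hcon
    push Not at hcon
    nlinarith
  have hn1' : n < 1 := by exact_mod_cast hn1
  have hn2' : -2 < n := by exact_mod_cast hn2
  have : n = 0 ∨ n = -1 := by omega
  rcases this with rfl | rfl
  · left
    push_cast at hn
    linarith
  · right
    push_cast at hn
    linarith

lemma core {lam : ℝ} (h2 : 2 ≤ lam) (M L : ℕ) (hL : 0 < L) (hdvd : L ∣ M) (x : Fin M → ℝ)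
    (hx0 : ∀ i, 0 ≤ x i) (hx1 : ∀ i, x i < lam) (hmono : Monotone x)
    (hload : LoadLE lam (fun i => (x i : AddCircle lam)) L) (i j : Fin M) (hij : i < j)
    (hmod : (i : ℕ) % L = (j : ℕ) % L) :
    ¬ (arc lam (x i : AddCircle lam) ∩ arc lam (x j : AddCircle lam)).Nonempty := by
  intro h
  have hij' : (i : ℕ) < j := hij
  obtain ⟨m, hm⟩ := hdvd
  have hdiff : ∃ d, (j : ℕ) = i + L * d ∧ 1 ≤ d := by
    have h1 : L ∣ (j : ℕ) - i := (Nat.modEq_iff_dvd' hij'.le).1 hmod
    obtain ⟨d, hd⟩ := h1
    refine ⟨d, by omega, ?_⟩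
    rcases Nat.eq_zero_or_pos d with h0 | h0
    · subst h0; omega
    · exact h0
  obtain ⟨d, hd, hd1⟩ := hdiff
  have hLd : L ≤ L * d := Nat.le_mul_of_pos_right _ hd1
  rcases arc_inter h2 (hx0 i) (hmono hij.le) (hx1 j) h with h1 | h1
  · have hsub : ((Finset.Icc i j : Finset (Fin M)) : Set (Fin M)) ⊆
        {l | (x j : AddCircle lam) ∈ arc lam (x l : AddCircle lam)} := by
      intro l hl
      rw [Finset.coe_Icc, Set.mem_Icc] at hl
      have h3 := hmono hl.1
      have h4 := hmono hl.2
      exact mem_arc (x j - x l) (by linarith) (by linarith) 0 (by push_cast; ring)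
    have h3 := Set.ncard_le_ncard hsub (Set.toFinite _)
    rw [Set.ncard_coe_finset, Fin.card_Icc] at h3
    have h4 : {l : Fin M | (x j : AddCircle lam) ∈ arc lam (x l : AddCircle lam)}.ncard ≤ L :=
      hload (x j)
    omega
  · have hsub : ((Finset.Ici j ∪ Finset.Iic i : Finset (Fin M)) : Set (Fin M)) ⊆
        {l | (x i : AddCircle lam) ∈ arc lam (x l : AddCircle lam)} := by
      intro l hl
      rw [Finset.coe_union, Finset.coe_Ici, Finset.coe_Iic, Set.mem_union, Set.mem_Ici,
        Set.mem_Iic] at hl
      rcases hl with hl | hl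
      · have h3 := hmono hl
        have h4 := hx1 l
        have h5 := hx0 i
        exact mem_arc (x i + lam - x l) (by linarith) (by linarith) (-1) (by push_cast; ring)
      · have h3 := hmono hl
        have h4 := hx0 l
        have h5 := hx1 j
        exact mem_arc (x i - x l) (by linarith) (by linarith) 0 (by push_cast; ring)
    have h3 := Set.ncard_le_ncard hsub (Set.toFinite _)
    have hdisj : Disjoint (Finset.Ici j : Finset (Fin M)) (Finset.Iic i) := by
      rw [Finset.disjoint_left]
      intro l hl hl'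
      rw [Finset.mem_Ici] at hl
      rw [Finset.mem_Iic] at hl'
      exact absurd (hl.trans hl') (not_le.2 hij)
    rw [Set.ncard_coe_finset, Finset.card_union_of_disjoint hdisj, Fin.card_Ici,
      Fin.card_Iic] at h3
    have h4 : {l : Fin M | (x i : AddCircle lam) ∈ arc lam (x l : AddCircle lam)}.ncard ≤ L :=
      hload (x i)
    -- `j - i ≤ M - L`
    have hjM := j.isLt
    have hdm : d < m := by
      by_contra hcon
      push Not at hcon
      have : L * m ≤ L * d := Nat.mul_le_mul_left _ hcon
      omega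
    have h5 : L * (d + 1) ≤ L * m := Nat.mul_le_mul_left _ hdm
    have h6 : L * (d + 1) = L * d + L := by ring
    omega

/-- **Q1 in a stronger form.** Let `lam ≥ 2` and let `arc (a i)`, `i ∈ ι`, be a finite family of
unit arcs on the circle of circumference `lam`. Suppose that one can add `k ≥ L - 1` unit arcs
`arc (b j)` so that every point of the circle lies in at most `L` of the arcs of the whole
family. Then the family `arc (a i)` has a proper colouring with `L` colours: intersecting arcs
with different indices get different colours. -/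
theorem result (lam : ℝ) (h2 : 2 ≤ lam) (ι : Type) [Fintype ι] (a : ι → AddCircle lam)
    (L k : ℕ) (hk : L ≤ k + 1) (b : Fin k → AddCircle lam)
    (hload : LoadLE lam (Sum.elim a b) L) :
    ∃ c : ι → Fin L, ∀ i j : ι, i ≠ j → (arc lam (a i) ∩ arc lam (a j)).Nonempty →
      c i ≠ c j := by
  classical
  have hpos : Fact (0 < lam) := ⟨by linarith⟩
  rcases Nat.eq_zero_or_pos L with hL0 | hL
  · -- no arcs at all
    subst hL0
    have hempty : ∀ i : ι, False := by
      intro i
      have h1 := hload (a i)
      have h3 : (Sum.inl i : ι ⊕ Fin k) ∈ {j : ι ⊕ Fin k | a i ∈ arc lam (Sum.elim a b j)} :=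
        ⟨0, le_rfl, by norm_num, by simp⟩
      have h4 : {j : ι ⊕ Fin k | a i ∈ arc lam (Sum.elim a b j)}.ncard = 0 := by omega
      rw [Set.ncard_eq_zero (Set.toFinite _)] at h4
      rw [h4] at h3
      exact h3
    exact ⟨fun i => (hempty i).elim, fun i => (hempty i).elim⟩
  · set N := Fintype.card ι with hN
    set q := (L - N % L) % L with hq
    have hqk : q ≤ k := by
      have : q < L := Nat.mod_lt _ hL
      omega
    have hdvd : L ∣ N + q := by
      have h1 : N % L < L := Nat.mod_lt _ hL
      rcases Nat.eq_zero_or_pos (N % L) with h0 | h0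
      · have : q = 0 := by rw [hq, h0, Nat.sub_zero, Nat.mod_self]
        rw [this, add_zero]
        exact Nat.dvd_of_mod_eq_zero h0
      · have : q = L - N % L := by rw [hq, Nat.mod_eq_of_lt (by omega)]
        rw [this]
        refine ⟨N / L + 1, ?_⟩
        have := Nat.div_add_mod N L
        rw [mul_add, mul_one]
        omega
    let g : ι ⊕ Fin q → AddCircle lam := Sum.elim a (fun j => b (Fin.castLE hqk j))
    let f : ι ⊕ Fin q → ℝ := fun z => (AddCircle.equivIco lam 0 (g z) : ℝ)
    have hf : ∀ z, (f z : AddCircle lam) = g z := fun z => AddCircle.coe_equivIco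
    have hf0 : ∀ z, 0 ≤ f z := fun z => (AddCircle.equivIco lam 0 (g z)).2.1
    have hf1 : ∀ z, f z < lam := fun z => by
      have := (AddCircle.equivIco lam 0 (g z)).2.2
      simpa using this
    have hcard : Fintype.card (ι ⊕ Fin q) = N + q := by simp [hN]
    let e0 : ι ⊕ Fin q ≃ Fin (N + q) := Fintype.equivFinOfCardEq hcard
    let σ := Tuple.sort (fun l => f (e0.symm l))
    let e : Fin (N + q) ≃ ι ⊕ Fin q := σ.trans e0.symm
    have hmono : Monotone (fun l => f (e l)) := Tuple.monotone_sort (fun l => f (e0.symm l))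
    have hload' : LoadLE lam (fun l => ((f (e l) : ℝ) : AddCircle lam)) L := by
      intro p
      refine le_trans ?_ (hload p)
      let φ : Fin (N + q) → ι ⊕ Fin k := fun l => Sum.map id (Fin.castLE hqk) (e l)
      have hφ : Function.Injective φ := by
        intro l l' h
        apply e.injective
        exact (Function.injective_id.sumMap (Fin.castLE_injective hqk)) h
      have hmaps : ∀ l ∈ {l : Fin (N + q) | p ∈ arc lam ((f (e l) : ℝ) : AddCircle lam)},
          φ l ∈ {j : ι ⊕ Fin k | p ∈ arc lam (Sum.elim a b j)} := by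
        intro l hl
        rw [Set.mem_ofPred_eq, hf] at hl
        show p ∈ arc lam (Sum.elim a b (φ l))
        have : Sum.elim a b (φ l) = g (e l) := by
          show Sum.elim a b (Sum.map id (Fin.castLE hqk) (e l)) = g (e l)
          rcases e l with z | z <;> rfl
        rw [this]
        exact hl
      exact Set.ncard_le_ncard_of_injOn φ hmaps (hφ.injOn) (Set.toFinite _)
    refine ⟨fun i => ⟨(e.symm (Sum.inl i) : ℕ) % L, Nat.mod_lt _ hL⟩, ?_⟩
    intro i j hij hne hc
    have hmod : (e.symm (Sum.inl i) : ℕ) % L = (e.symm (Sum.inl j) : ℕ) % L :=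
      congrArg Fin.val hc
    have hne' : e.symm (Sum.inl i) ≠ e.symm (Sum.inl j) := by
      intro h
      exact hij (Sum.inl_injective (e.symm.injective h))
    have hi : ((f (e (e.symm (Sum.inl i))) : ℝ) : AddCircle lam) = a i := by
      rw [hf, Equiv.apply_symm_apply]
      rfl
    have hj : ((f (e (e.symm (Sum.inl j))) : ℝ) : AddCircle lam) = a j := by
      rw [hf, Equiv.apply_symm_apply]
      rfl
    rcases lt_or_gt_of_ne hne' with hlt | hlt
    · refine core h2 (N + q) L hL hdvd _ (fun l => hf0 _) (fun l => hf1 _) hmono hload' _ _ hlt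
        hmod ?_
      simp only [hi, hj]
      exact hne
    · refine core h2 (N + q) L hL hdvd _ (fun l => hf0 _) (fun l => hf1 _) hmono hload' _ _ hlt
        hmod.symm ?_
      simp only [hi, hj]
      rwa [Set.inter_comm]

end Pool.Agent.Results.MP_7d4b8e_co.UnitArcs
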